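import Pool.Agent.Helper19.SQ.GoalsH

/-!
Project SQ (MP_bb32d1_al), packet FDIM.
-/

namespace Pool.Agent.Helper18.SQ

open Pool.Agent.Helper19.SQ

theorem s_fdim (h : S_TRI) : S_FDIM := by
  intro N l q hP
  have hl : 0 < l := by
    have := hP.h3
    omega
  let g : EX N l × EX N l × (Fin (N + 1) → Fin l) → A N l q := fun t =>
    mon N q (gF N l q) t.1.1 *
      kmon N (gK N l q) (fun j => if hj : j < N + 1 then (t.2.2 ⟨j, hj⟩ : ℕ) else 0) *
      mon N q (gE N l q) t.2.1.1
  have hsub : {y | ∃ (a b : EX N l) (κ : ℕ → ℕ), (∀ j, κ j < l) ∧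
      y = mon N q (gF N l q) a.1 * kmon N (gK N l q) κ * mon N q (gE N l q) b.1} ⊆
      Set.range g := by
    rintro y ⟨a, b, κ, hκ, rfl⟩
    refine ⟨(a, b, fun j => ⟨κ j, hκ j⟩), ?_⟩
    have e : kmon N (gK N l q) (fun j => if hj : j < N + 1 then κ j else 0) =
        kmon N (gK N l q) κ := by
      unfold kmon
      congr 1
      refine List.map_congr_left fun j hj => ?_
      simp only [dif_pos (List.mem_range.1 hj)]
    change mon N q (gF N l q) a.1 *
      kmon N (gK N l q) (fun j => if hj : j < N + 1 then κ j else 0) *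
      mon N q (gE N l q) b.1 = _
    rw [e]
  have hfin := (Set.finite_range g).subset hsub
  refine ⟨?_⟩
  have htop : Submodule.span ℂ {y | ∃ (a b : EX N l) (κ : ℕ → ℕ), (∀ j, κ j < l) ∧
      y = mon N q (gF N l q) a.1 * kmon N (gK N l q) κ * mon N q (gE N l q) b.1} = ⊤ := by
    rw [eq_top_iff]
    intro x _
    exact h N l q hP x
  rw [← htop]
  exact Submodule.fg_span hfin

end Pool.Agent.Helper18.SQ
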