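import Pool.Agent.Helper19.SQ.GoalsS

/-!
Project SQ (MP_bb32d1_al), packet TWI: a generic torus element.
-/

namespace Pool.Agent.Helper18.SQ

open Pool.Agent.Helper19.SQ

/-- the `j`-th prime as a unit of `ℂ` -/
noncomputable def pu (j : ℕ) : ℂˣ :=
  Units.mk0 (Nat.nth Nat.Prime j : ℂ) (by
    have := (Nat.prime_nth_prime j).ne_zero
    exact_mod_cast this)

theorem val_prod (p : ℕ) [Fact p.Prime] {ι : Type} (S : Finset ι) (f : ι → ℚ)
    (hf : ∀ i, f i ≠ 0) : padicValRat p (∏ i ∈ S, f i) = ∑ i ∈ S, padicValRat p (f i) := by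
  classical
  induction S using Finset.induction_on with
  | empty => simp
  | insert a S ha ih =>
    rw [Finset.prod_insert ha, Finset.sum_insert ha, padicValRat.mul (hf a)
      (Finset.prod_ne_zero_iff.2 fun i _ => hf i), ih]

theorem s_twi : S_TWI := by
  intro N
  refine ⟨pu, fun μ ν h => ?_⟩
  have hq : ∀ μ : Fin (N + 1) → ℤ, tw N pu μ =
      ((∏ j : Fin (N + 1), (Nat.nth Nat.Prime j : ℚ) ^ μ j : ℚ) : ℂ) := by
    intro μ
    rw [tw]
    push_cast
    rfl
  rw [hq, hq] at h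
  have h1 : ∏ j : Fin (N + 1), (Nat.nth Nat.Prime j : ℚ) ^ μ j =
      ∏ j : Fin (N + 1), (Nat.nth Nat.Prime j : ℚ) ^ ν j := by exact_mod_cast h
  have h0 : ∀ (μ : Fin (N + 1) → ℤ) (j : Fin (N + 1)), (Nat.nth Nat.Prime j : ℚ) ^ μ j ≠ 0 := by
    intro μ j
    apply zpow_ne_zero
    have := (Nat.prime_nth_prime (j : ℕ)).ne_zero
    exact_mod_cast this
  have hv : ∀ (μ : Fin (N + 1) → ℤ) (k : Fin (N + 1)),
      padicValRat (Nat.nth Nat.Prime k) (∏ j : Fin (N + 1), (Nat.nth Nat.Prime j : ℚ) ^ μ j) =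
        μ k := by
    intro μ k
    have : Fact (Nat.nth Nat.Prime k).Prime := ⟨Nat.prime_nth_prime k⟩
    rw [val_prod _ _ _ (h0 μ), Finset.sum_eq_single k]
    · rw [padicValRat.zpow, padicValRat.self (Nat.prime_nth_prime (k : ℕ)).one_lt, mul_one]
    · intro j _ hj
      have : Fact (Nat.nth Nat.Prime j).Prime := ⟨Nat.prime_nth_prime j⟩
      have hne : Nat.nth Nat.Prime k ≠ Nat.nth Nat.Prime j := by
        intro e
        have h2 := Nat.nth_injective Nat.infinite_setOfPred_prime e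
        exact hj (Fin.ext h2.symm)
      rw [padicValRat.zpow, padicValRat.of_nat, padicValNat_primes hne]
      simp
    · intro hk
      exact absurd (Finset.mem_univ k) hk
  funext k
  rw [← hv μ k, ← hv ν k, h1]

end Pool.Agent.Helper18.SQ
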