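import Pool.Agent.Helper4.SQ.GoalsR2
import Pool.Agent.Helper27.SQ.EFFE
import Pool.Agent.Helper34.SQ.GoalsT0

/-! Project SQ (MP_bb32d1_al), packet SQR-OPEF. -/

set_option autoImplicit false

namespace Pool.Agent.Helper18.SQ

noncomputable section

open Matrix Pool.Agent.Helper19.SQ Pool.Agent.Helper34.SQ Pool.Agent.Helper41.SQ
  Pool.Agent.Helper4.SQ

variable {A : Type} [Ring A] [Algebra ℂ A] {ι : Type} [Fintype ι] [DecidableEq ι]

theorem trace_tr_mul (f : A →ₐ[ℂ] Matrix ι ι A) (M Z : Matrix ι ι A) :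
    Matrix.trace (f (Matrix.trace M) * Z) = Matrix.trace (Phi f M * X1 Z) := by
  simp only [Matrix.trace, Matrix.diag_apply, Matrix.mul_apply, Phi_apply, X1, Matrix.of_apply,
    Fintype.sum_prod_type, map_sum, Matrix.sum_apply, Finset.sum_mul, mul_ite, mul_zero]
  have h1 : ∀ x y : ι, ∑ x_1, ∑ x_2, (if x_1 = x then f (M x x_1) y x_2 * Z x_2 y else 0) =
      ∑ x_2, f (M x x) y x_2 * Z x_2 y := by
    intro x y
    rw [Finset.sum_eq_single x]
    · simp
    · intro b _ hb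
      simp [hb]
    · intro h
      exact absurd (Finset.mem_univ x) h
  simp only [h1]
  rw [Finset.sum_comm' (t' := Finset.univ) (s' := fun _ => Finset.univ) (by simp)]

theorem sOPEF (hCORE0 : S_CORE0) (hTR : Pool.Agent.Helper34.SQ.S_TR) (hDPV : S_DPV)
    (hDP2 : S_DP2) : S_OPEF := by
  intro A _ _ ι _ _ C τ htr g
  obtain ⟨h1, h2, h3, -, h5, -⟩ := hCORE0 A ι C
  have hv1 : vv C.ε (pev 1 C.X) = 1 := by
    have : pev 1 C.X = (1 : Matrix ι ι A) := by
      rw [pev, map_one]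
    rw [this]
    exact (hDPV A ι C.δ C.ε (hDP2 A ι C).1).2.2.1
  refine LinearMap.ext fun x => ?_
  have hE : EO C 1 (FO C g τ) x = τ (Matrix.trace (pev g (X1 C.X) * D1 C.δ C.ε x)) := by
    rw [EO_apply, hv1, mul_one, FO_apply, trace_tr_mul, ← D1_eq, ← pev_X1, pev_comm (h1 x) g]
  have hF : FO C g (EO C 1 τ) x = τ (Matrix.trace (pev g (X2 C.ε C.X) * D2 C.δ C.ε x)) := by
    rw [FO_apply, EO_apply, hv1, mul_one, ← Pool.Agent.Helper27.SQ.trace_Phi, map_mul, ← D2_eq,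
      ← pev_X2, pev_comm (h2 x) g]
  have hD : τ (Matrix.trace (pev g (X1 C.X) * D1 C.δ C.ε x)) =
      τ (Matrix.trace (pev g C.X1p * D2 C.δ C.ε x)) := by
    rw [h5 g, mul_assoc (sc A C.S * pev g (X1 C.X)), h3 x, mul_assoc (sc A C.S),
      trace_comm_of_tr htr (sc A C.S), mul_assoc, mul_assoc, sc_mul, C.TS, sc_one, mul_one]
  have hsum : ∀ Y : Matrix (ι × ι) (ι × ι) A, τ (Matrix.trace (pev g Y * D2 C.δ C.ε x)) =
      ∑ k ∈ Finset.range (g.natDegree + 1), g.coeff k * τ (Matrix.trace (Y ^ k * D2 C.δ C.ε x)) := by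
    intro Y
    rw [pev, Polynomial.aeval_eq_sum_range, Finset.sum_mul, Matrix.trace_sum, map_sum]
    refine Finset.sum_congr rfl fun k _ => ?_
    rw [smul_mul_assoc, Matrix.trace_smul, map_smul, smul_eq_mul]
  have hdiff : τ (Matrix.trace (pev g (X2 C.ε C.X) * D2 C.δ C.ε x)) -
      τ (Matrix.trace (pev g C.X1p * D2 C.δ C.ε x)) = τ (pair g C.pi * x) := by
    rw [hsum, hsum, ← Finset.sum_sub_distrib, pair_eq_range, Finset.sum_mul, map_sum]
    refine Finset.sum_congr rfl fun k _ => ?_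
    rw [← mul_sub, hTR A (ι × ι) (X2 C.ε C.X) C.X1p (D2 C.δ C.ε x)
      C.u C.v x τ C.X2eq (h2 x) (C.uD x) htr k, smul_mul_assoc, map_smul, smul_eq_mul]
    rfl
  rw [LinearMap.sub_apply, LinearMap.neg_apply, MO_apply, hE, hF, hD, ← hdiff]
  ring

end

end Pool.Agent.Helper18.SQ
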